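import Pool.Agent.helper1.CD.Spec

set_option autoImplicit false

open NumberField IsDedekindDomain Complex Pool.Agent.CH Pool.Agent.GK

namespace Pool.Agent.CD

/-- the measure of a union of cosets -/
theorem HAR_cos (Γ : Type) [Group Γ] [TopologicalSpace Γ] [IsTopologicalGroup Γ] [CompactSpace Γ]
    [MeasurableSpace Γ] [BorelSpace Γ] (μ : MeasureTheory.Measure Γ) [μ.IsHaarMeasure] (U : Subgroup Γ) (hU : IsOpen (U : Set Γ))
    (S : Finset (Γ ⧸ U)) : μ.real ((fun g : Γ => (g : Γ ⧸ U)) ⁻¹' (S : Set (Γ ⧸ U))) = (S.card : ℝ) * μ.real (U : Set Γ) := by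
  classical
  have hset : ∀ g : Γ, (fun x : Γ => (x : Γ ⧸ U)) ⁻¹' {(g : Γ ⧸ U)} = (fun x : Γ => g⁻¹ * x) ⁻¹' (U : Set Γ) := by
    intro g
    ext x
    rw [Set.mem_preimage, Set.mem_singleton_iff, Set.mem_preimage, SetLike.mem_coe, ← QuotientGroup.eq]
    exact eq_comm
  have hm : ∀ q : Γ ⧸ U, μ.real ((fun x : Γ => (x : Γ ⧸ U)) ⁻¹' {q}) = μ.real (U : Set Γ) := by
    intro q
    obtain ⟨g, rfl⟩ := QuotientGroup.mk_surjective q
    rw [hset g, MeasureTheory.measureReal_def, MeasureTheory.measure_preimage_mul, ← MeasureTheory.measureReal_def]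
  have hmeas : ∀ q : Γ ⧸ U, MeasurableSet ((fun x : Γ => (x : Γ ⧸ U)) ⁻¹' {q}) := by
    intro q
    obtain ⟨g, rfl⟩ := QuotientGroup.mk_surjective q
    rw [hset g]
    exact (hU.preimage (continuous_const.mul continuous_id)).measurableSet
  have hun : (fun g : Γ => (g : Γ ⧸ U)) ⁻¹' (S : Set (Γ ⧸ U)) = ⋃ q ∈ S, (fun x : Γ => (x : Γ ⧸ U)) ⁻¹' {q} := by
    ext x
    simp
  rw [hun, MeasureTheory.measureReal_biUnion_finset ?_ fun q _ => hmeas q, Finset.sum_congr rfl fun q _ => hm q, Finset.sum_const, nsmul_eq_mul]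
  intro q _ q' _ hqq'
  exact Set.disjoint_left.2 fun x hx hx' => hqq' ((Set.mem_singleton_iff.1 hx).symm.trans (Set.mem_singleton_iff.1 hx'))

theorem HAR : HAR_stmt := by
  intro Γ _ _ _ _ _ _ _ μ _ C hC ε hε
  classical
  obtain ⟨O, hCO, hO, hμ⟩ := C.exists_isOpen_le_add μ (ENNReal.ofReal_pos.2 hε).ne'
  obtain ⟨V, hV, hCV⟩ := compact_open_separated_mul_right hC.isCompact hO hCO
  obtain ⟨V', hV'V, hV'o, hV'1⟩ := mem_nhds_iff.1 hV
  obtain ⟨H, hH⟩ := ProfiniteGrp.exist_openNormalSubgroup_sub_open_nhds_of_one hV'o hV'1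
  have hHo : IsOpen ((H.toSubgroup : Subgroup Γ) : Set Γ) := H.isOpen'
  have hfin : Finite (Γ ⧸ H.toSubgroup) := Subgroup.quotient_finite_of_isOpen H.toSubgroup hHo
  have hft : Fintype (Γ ⧸ H.toSubgroup) := Fintype.ofFinite _
  refine ⟨H.toSubgroup, hHo, H.isNormal', ?_⟩
  have hSf : ((fun g : Γ => (g : Γ ⧸ H.toSubgroup)) '' C).Finite := Set.toFinite _
  have h1 := HAR_cos Γ μ H.toSubgroup hHo hSf.toFinset
  have h2 := HAR_cos Γ μ H.toSubgroup hHo Finset.univ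
  rw [Finset.coe_univ, Set.preimage_univ, Finset.card_univ, ← Nat.card_eq_fintype_card] at h2
  have h3 : (hSf.toFinset.card : ℝ) = (Nat.card ((fun g : Γ => (g : Γ ⧸ H.toSubgroup)) '' C) : ℝ) := by
    rw [Nat.card_coe_set_eq, Set.ncard_eq_toFinset_card _ hSf]
  have h4 : (fun g : Γ => (g : Γ ⧸ H.toSubgroup)) ⁻¹' ((fun g : Γ => (g : Γ ⧸ H.toSubgroup)) '' C) ⊆ O := by
    intro x hx
    obtain ⟨c, hc, hcx⟩ := hx
    refine hCV ?_
    refine Set.mem_mul.2 ⟨c, hc, c⁻¹ * x, hV'V (hH ?_), mul_inv_cancel_left c x⟩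
    exact QuotientGroup.eq.1 hcx
  have h5 : μ.real ((fun g : Γ => (g : Γ ⧸ H.toSubgroup)) ⁻¹' ((fun g : Γ => (g : Γ ⧸ H.toSubgroup)) '' C)) ≤ μ.real C + ε := by
    have e1 : μ ((fun g : Γ => (g : Γ ⧸ H.toSubgroup)) ⁻¹' ((fun g : Γ => (g : Γ ⧸ H.toSubgroup)) '' C)) ≤ μ C + ENNReal.ofReal ε :=
      (MeasureTheory.measure_mono h4).trans hμ
    have e2 := ENNReal.toReal_mono (ENNReal.add_ne_top.2 ⟨MeasureTheory.measure_ne_top μ C, ENNReal.ofReal_ne_top⟩) e1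
    rw [ENNReal.toReal_add (MeasureTheory.measure_ne_top μ C) ENNReal.ofReal_ne_top, ENNReal.toReal_ofReal hε.le] at e2
    exact e2
  rw [Set.Finite.coe_toFinset, h3] at h1
  rw [h1] at h5
  rw [h2]
  have h6 : (0 : ℝ) ≤ (H.toSubgroup.index : ℝ) := Nat.cast_nonneg _
  have h7 : (H.toSubgroup.index : ℝ) = (Nat.card (Γ ⧸ H.toSubgroup) : ℝ) := rfl
  rw [← h7]
  calc _ = ((Nat.card ((fun g : Γ => (g : Γ ⧸ H.toSubgroup)) '' C) : ℝ) * μ.real (H.toSubgroup : Set Γ)) * (H.toSubgroup.index : ℝ) := by ring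
    _ ≤ _ := mul_le_mul_of_nonneg_right h5 h6

end Pool.Agent.CD
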