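import Pool.Agent.helper1.CD.Spec

set_option autoImplicit false

open NumberField IsDedekindDomain Complex Pool.Agent.CH Pool.Agent.GK

namespace Pool.Agent.CD

/-- the sum of the inequalities of `GDN` -/
theorem LOB_ind (K M : Type) [Field K] [NumberField K] [Field M] [NumberField M] [Algebra K M]
    (c : (M ≃ₐ[K] M) → ℝ) (X : Set (M ≃ₐ[K] M))
    (h : ∀ g ∈ X, ∃ C δ : ℝ, 0 < δ ∧ ∀ s : ℝ, 1 < s → s < 1 + δ → -Real.log (s - 1) ≤ c g * DS K (Fp K M g) s + C)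
    (Y : Finset (M ≃ₐ[K] M)) (hY : ∀ g ∈ Y, g ∈ X) :
    ∃ C δ : ℝ, 0 < δ ∧ ∀ s : ℝ, 1 < s → s < 1 + δ →
      (Y.card : ℝ) * (-Real.log (s - 1)) ≤ ∑ g ∈ Y, c g * DS K (Fp K M g) s + C := by
  classical
  induction Y using Finset.induction_on with
  | empty => exact ⟨0, 1, one_pos, fun s _ _ => by simp⟩
  | insert a Y ha ih =>
    obtain ⟨C, δ, hδ, h1⟩ := ih fun g hg => hY g (Finset.mem_insert_of_mem hg)
    obtain ⟨C', δ', hδ', h2⟩ := h a (hY a (Finset.mem_insert_self a Y))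
    refine ⟨C + C', min δ δ', lt_min hδ hδ', fun s hs hs' => ?_⟩
    have h3 := h1 s hs (lt_of_lt_of_le hs' (by linarith [min_le_left δ δ']))
    have h4 := h2 s hs (lt_of_lt_of_le hs' (by linarith [min_le_right δ δ']))
    rw [Finset.sum_insert ha, Finset.card_insert_of_notMem ha]
    push_cast
    linarith

theorem LOB_fin (K M : Type) [Field K] [NumberField K] [Field M] [NumberField M] [Algebra K M] : Finite (M ≃ₐ[K] M) := by
  have : Module.Finite K M := Module.Finite.of_restrictScalars_finite ℚ K M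
  infer_instance

/-- exchange of the sums -/
theorem LOB_exc {V : Type} {G : Type} (f : V → ℝ) (hf : Summable f) (hf0 : ∀ v, 0 ≤ f v) (c : G → ℕ) (N : ℕ) (F : G → Set V) (T : Set V) (Y : Finset G)
    (h : ∀ v ∉ T, ∀ Y' : Finset G, (∀ g ∈ Y', v ∈ F g) → ∑ g ∈ Y', c g ≤ N) :
    ∑ g ∈ Y, (c g : ℝ) * ∑' v : (F g \ T : Set V), f v ≤ N * ∑' v : (⋃ g ∈ Y, F g : Set V), f v := by
  classical
  have e1 : ∀ g ∈ Y, (c g : ℝ) * ∑' v : (F g \ T : Set V), f v = ∑' v, (c g : ℝ) * (F g \ T).indicator f v := by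
    intro g _
    rw [tsum_subtype (F g \ T) f, tsum_mul_left]
  rw [Finset.sum_congr rfl e1, ← Summable.tsum_finsetSum fun g _ => (hf.indicator _).mul_left _, tsum_subtype (⋃ g ∈ Y, F g) f, ← tsum_mul_left]
  refine Summable.tsum_le_tsum (fun v => ?_) (summable_sum fun g _ => (hf.indicator _).mul_left _) ((hf.indicator _).mul_left _)
  by_cases hv : v ∈ T
  · have e2 : ∑ g ∈ Y, (c g : ℝ) * (F g \ T).indicator f v = 0 := by
      refine Finset.sum_eq_zero fun g _ => ?_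
      rw [Set.indicator_of_notMem (fun h => h.2 hv), mul_zero]
    rw [e2]
    exact mul_nonneg (Nat.cast_nonneg _) (Set.indicator_nonneg (fun _ _ => hf0 _) _)
  · have e2 : ∑ g ∈ Y, (c g : ℝ) * (F g \ T).indicator f v = (∑ g ∈ Y.filter (fun g => v ∈ F g), (c g : ℝ)) * f v := by
      rw [Finset.sum_mul, Finset.sum_filter]
      refine Finset.sum_congr rfl fun g _ => ?_
      by_cases hg : v ∈ F g
      · rw [Set.indicator_of_mem (show v ∈ F g \ T from ⟨hg, hv⟩), if_pos hg]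
      · rw [Set.indicator_of_notMem (fun h => hg h.1), if_neg hg, mul_zero]
    rw [e2]
    by_cases hU : v ∈ ⋃ g ∈ Y, F g
    · rw [Set.indicator_of_mem hU]
      refine mul_le_mul_of_nonneg_right ?_ (hf0 v)
      have e3 := h v hv (Y.filter (fun g => v ∈ F g)) fun g hg => (Finset.mem_filter.1 hg).2
      exact_mod_cast e3
    · have e3 : Y.filter (fun g => v ∈ F g) = ∅ := by
        refine Finset.filter_eq_empty_iff.2 fun g hg hgv => hU ?_
        exact Set.mem_iUnion₂.2 ⟨g, hg, hgv⟩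
      rw [e3, Set.indicator_of_notMem hU]
      simp

theorem LOB (hLOA : LOA_stmt) (hGDN : GDN_stmt) (hDSL : DSL_stmt) (hSMB : SMB_stmt) : LOB_stmt := by
  intro K M _ _ _ _ _ _ m z X hm hz hX
  classical
  have : Finite (M ≃ₐ[K] M) := LOB_fin K M
  obtain ⟨T, hT⟩ := hLOA K M
  have hfin : X.Finite := Set.toFinite X
  have h0 : ∀ g ∈ X, ∃ C δ : ℝ, 0 < δ ∧ ∀ s : ℝ, 1 < s → s < 1 + δ →
      -Real.log (s - 1) ≤ (Nat.card {h : M ≃ₐ[K] M // h * g = g * h} : ℝ) * DS K (Fp K M g) s + C := by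
    intro g hg
    have hne : NeZero m := ⟨hm.ne'⟩
    have h1 : (g z) ^ m = 1 := by rw [← map_pow, hz.pow_eq_one, map_one]
    obtain ⟨r, -, hr⟩ := hz.eq_pow_of_pow_eq_one h1
    exact hGDN K M m r z g hm hz hr.symm (hX g hg)
  obtain ⟨C, δ, hδ, h1⟩ := LOB_ind K M (fun g => (Nat.card {h : M ≃ₐ[K] M // h * g = g * h} : ℝ)) X h0 hfin.toFinset fun g hg => hfin.mem_toFinset.1 hg
  refine ⟨C + ∑ g ∈ hfin.toFinset, (Nat.card {h : M ≃ₐ[K] M // h * g = g * h} : ℝ) * ((T : Set (Pl K)).ncard : ℝ), δ, hδ, fun s hs hs' => ?_⟩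
  have h2 := h1 s hs hs'
  obtain ⟨d0, dmono, dun, dfin⟩ := hDSL K s hs
  have hc : (hfin.toFinset.card : ℝ) = (Nat.card X : ℝ) := by
    rw [Nat.card_coe_set_eq, Set.ncard_eq_toFinset_card X hfin]
  rw [hc] at h2
  refine h2.trans ?_
  have h3 : ∀ g, DS K (Fp K M g) s ≤ DS K (Fp K M g \ (T : Set (Pl K))) s + ((T : Set (Pl K)).ncard : ℝ) := by
    intro g
    have e1 : Fp K M g ⊆ (Fp K M g \ (T : Set (Pl K))) ∪ (T : Set (Pl K)) := by
      intro v hv
      by_cases hvT : v ∈ (T : Set (Pl K))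
      · exact Or.inr hvT
      · exact Or.inl ⟨hv, hvT⟩
    refine (dmono _ _ e1).trans ?_
    rw [dun _ _ Set.disjoint_sdiff_left]
    exact add_le_add le_rfl (dfin _ T.finite_toSet)
  have h4 : ∑ g ∈ hfin.toFinset, (Nat.card {h : M ≃ₐ[K] M // h * g = g * h} : ℝ) * DS K (Fp K M g) s ≤
      ∑ g ∈ hfin.toFinset, (Nat.card {h : M ≃ₐ[K] M // h * g = g * h} : ℝ) * DS K (Fp K M g \ (T : Set (Pl K))) s +
      ∑ g ∈ hfin.toFinset, (Nat.card {h : M ≃ₐ[K] M // h * g = g * h} : ℝ) * ((T : Set (Pl K)).ncard : ℝ) := by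
    rw [← Finset.sum_add_distrib]
    refine Finset.sum_le_sum fun g _ => ?_
    rw [← mul_add]
    exact mul_le_mul_of_nonneg_left (h3 g) (Nat.cast_nonneg _)
  have h5 := LOB_exc (fun v : Pl K => (nv K v : ℝ) ^ (-s)) ((hSMB K).1 s hs) (fun v => Real.rpow_nonneg (Nat.cast_nonneg _) _)
    (fun g : M ≃ₐ[K] M => Nat.card {h : M ≃ₐ[K] M // h * g = g * h}) (Nat.card (M ≃ₐ[K] M)) (fun g => Fp K M g) (T : Set (Pl K)) hfin.toFinset
    (fun v hv Y' hY' => hT v (fun h => hv (Finset.mem_coe.2 h)) Y' hY')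
  have h6 : (⋃ g ∈ hfin.toFinset, Fp K M g) = ⋃ g ∈ X, Fp K M g := by
    ext v
    simp only [Set.mem_iUnion, hfin.mem_toFinset]
  rw [h6] at h5
  have h7 : ∑ g ∈ hfin.toFinset, (Nat.card {h : M ≃ₐ[K] M // h * g = g * h} : ℝ) * DS K (Fp K M g \ (T : Set (Pl K))) s ≤
      (Nat.card (M ≃ₐ[K] M) : ℝ) * DS K (⋃ g ∈ X, Fp K M g) s := h5
  linarith

end Pool.Agent.CD
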